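import Mathlib
import Pool.Agent.R439.FD.FC

/-!
# `∑_{k<p} C(-1/4,k)^2 (-8)^k = (-1)^{(p-1)/4} (2x - p/(2x))` modulo `p^2`

Proof, `p = 4n+1`: modulo `p^2` the sum is `∑ C(n,k) C(-n-1/2,k) (-8)^k`, which is equal to the central
Delannoy number `∑ C(2n,k) C(2n+k,k)` (both satisfy the same recurrence of order two in `n`).  Modulo
`p^2` the latter is `T = ∑_{k ≤ 2n} (-1)^k (C(2k,k)/4^k)^2`.  The exact convolution
`∑ (-1)^k c_k c_{2n-k} = c_n`, `c_k = C(2k,k)/4^k`, and the reflection `k → 2n-k` give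
`T = (-1)^n C(2n,n) (1 + (p/2)(H_n - H_{2n}))`, and this is minus the quartic Jacobi sum, up to sign.
-/

set_option autoImplicit false

namespace Pool.Agent.Results.MP_fdcced_nt.QuestionOne

open Finset

/-- the binomial coefficient `a (a-1) ⋯ (a-k+1) / k!` for rational `a` -/
def binom (a : ℚ) (k : ℕ) : ℚ := (∏ i ∈ range k, (a - i)) / k.factorial

/-- `x ≡ y (mod p^2)` for rational numbers `x`, `y` with denominators prime to `p`:
`(x - y) / p^2` has denominator prime to `p`. -/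
def CongrSq (p : ℕ) (x y : ℚ) : Prop :=
  ¬ p ∣ x.den ∧ ¬ p ∣ y.den ∧ ¬ p ∣ ((x - y) / (p : ℚ) ^ 2).den

open Pool.Agent.R439.PL

theorem congr_of_EQ {p : ℕ} [Fact p.Prime] {x y : ℚ} (h : EQ p 2 x y) : CongrSq p x y := by
  refine ⟨?_, ?_, den_of_I h.2.2⟩
  · have := den_of_I (p := p) (k := 0) (I_zero_iff.2 h.1)
    rwa [pow_zero, div_one] at this
  · have := den_of_I (p := p) (k := 0) (I_zero_iff.2 h.2.1)
    rwa [pow_zero, div_one] at this

theorem result (p : ℕ) (hp : p.Prime) (h4 : p % 4 = 1) :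
    (∃ x y : ℤ, (p : ℤ) = x ^ 2 + y ^ 2 ∧ x % 4 = 1) ∧
    ∀ x y : ℤ, (p : ℤ) = x ^ 2 + y ^ 2 → x % 4 = 1 →
      CongrSq p (∑ k ∈ range p, binom (-1 / 4) k ^ 2 * (-8) ^ k)
        ((-1) ^ ((p - 1) / 4) * (2 * (x : ℚ) - p / (2 * x))) := by
  haveI : Fact p.Prime := ⟨hp⟩
  obtain ⟨n, hn⟩ : ∃ n, p = 4 * n + 1 := ⟨p / 4, by omega⟩
  constructor
  · obtain ⟨a, b, h1, h2, -⟩ := Pool.Agent.R439.FD.jac p n hn
    exact ⟨-a, b, by rw [h1]; ring, by omega⟩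
  · intro x y h1 h2
    have h3 := Pool.Agent.R439.PL.FD.SQ_val (p := p) hn h1 h2
    have e1 : (p - 1) / 4 = n := by omega
    rw [e1]
    exact congr_of_EQ h3

end Pool.Agent.Results.MP_fdcced_nt.QuestionOne
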